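import Pool.Agent.Lib.MP_6bc78b_nt.MS.GL.Iface
import Pool.Agent.Lib.MP_6bc78b_nt.MS.QZ.H59.Pid
import Pool.Agent.Lib.MP_6bc78b_nt.MS.QZ.H88.Mog

/-! Project MS, Part GL, module MOB: the prime polynomial against the moments of the short
prime sum. -/

set_option autoImplicit false

open Complex Filter Topology MeasureTheory ArithmeticFunction

namespace Pool.Agent.Lib.MP_6bc78b_nt.MS.GL.H48

open Pool.Agent.Lib.MP_6bc78b_nt.MS Pool.Agent.Lib.MP_6bc78b_nt.MS.P1
open Pool.Agent.Lib.MP_6bc78b_nt.MS.QZ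
open Pool.Agent.Lib.MP_6bc78b_nt.MS.QZ.H59 (dpoly_eq LS_pS pS_asum isPr_SS)
open Pool.Agent.Lib.MP_6bc78b_nt.MS.P5.H59 (LS_fin ASum_fin pow_data)
open Pool.Agent.Lib.MP_6bc78b_nt.MS.QZ.H88 (ll_tendsto cGL_ge)

lemma bb_apply (lam T : ℝ) (n : ℕ) : bb lam T n = bbf lam T n := rfl

lemma bb_len (lam T : ℝ) (n : ℕ) (h : bb lam T n ≠ 0) : (n : ℝ) ≤ T ^ lam := by
  by_contra h1
  exact h (by rw [bb_apply, bbf, if_neg h1])

lemma bb_asum (lam T c : ℝ) : ASum c (bb lam T) := by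
  refine ASum_fin (bb lam T) ⌊T ^ lam⌋₊ ?_ c
  intro n hn
  by_contra h
  exact absurd (Nat.le_floor (bb_len lam T n h)) (by omega)

/-- The two Dirichlet polynomials. -/
lemma polys (lam δ T : ℝ) (a b : ℕ) (hf : AdmD δ T (bb lam T * pS (SS T 0) ^ a))
    (hg : AdmD δ T (pS (SS T 0) ^ b)) (γ : ℝ) :
    dpoly (bb lam T * pS (SS T 0) ^ a) (T ^ (1 - δ)) (1 / 2 + γ * I) =
      BB lam T (1 / 2 + γ * I) * P0 T γ ^ a ∧
    dpoly (pS (SS T 0) ^ b) (T ^ (1 - δ)) (1 / 2 + γ * I) = P0 T γ ^ b := by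
  have hLS : LSerStatement := LSER.lser
  set s : ℂ := 1 / 2 + γ * I with hs
  have hpa := pow_data hLS s.re (pS (SS T 0)) (pS_asum _ _) a
  have hpb := pow_data hLS s.re (pS (SS T 0)) (pS_asum _ _) b
  have hm := hLS.2.2.2.2.1 s.re _ _ (bb_asum lam T s.re) hpa.1
  have hP : LS (pS (SS T 0)) s = P0 T γ := LS_pS _ (isPr_SS T 0) s
  constructor
  · rw [dpoly_eq _ _ (fun n => (hf n).2), hm.2.2 s rfl, hpa.2.2 s rfl, hP,
      ← dpoly_eq (bb lam T) (T ^ lam) (bb_len lam T)]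
    rfl
  · rw [dpoly_eq _ _ (fun n => (hg n).2), hpb.2.2 s rfl, hP]

/-- MOB: the prime polynomial against the moments of the short prime sum. -/
theorem mob (h1 : Sm2Statement) (h2 : Db1Statement) (h3 : Db2Statement) : MobStatement := by
  intro lam a b hlam0 hlam1
  have hδ0 : 0 < (1 - lam) / 2 := by linarith
  have hδ1 : (1 - lam) / 2 < 1 := by linarith
  have hlt : lam < 1 - (1 - lam) / 2 := by linarith
  generalize (1 - lam) / 2 = δ at hδ0 hδ1 hlt
  obtain ⟨C, T1, hC, -, hsm⟩ := h1 δ hδ0 hδ1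
  obtain ⟨K, T2, hK, -, hdb⟩ := h2 lam δ a b hlam0 hδ0 hlt
  have hmain := h3 lam δ a b hlam0 hδ0 hlt
  have hE : Tendsto (fun T : ℝ => C * (K * (ll T ^ (a + b) * Real.exp (-ll T)) + 4 / T) +
      2 * K / ll T ^ 2) atTop (𝓝 (C * (K * 0 + 0) + 0)) := by
    have hx : Tendsto (fun T : ℝ => ll T ^ (a + b) * Real.exp (-ll T)) atTop (𝓝 0) :=
      (Real.tendsto_pow_mul_exp_neg_atTop_nhds_zero (a + b)).comp ll_tendsto
    have hy : Tendsto (fun T : ℝ => 2 * K / ll T ^ 2) atTop (𝓝 0) :=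
      (tendsto_const_nhds (x := 2 * K)).div_atTop
        ((tendsto_pow_atTop (by norm_num)).comp ll_tendsto)
    have hz : Tendsto (fun T : ℝ => 4 / T) atTop (𝓝 0) :=
      (tendsto_const_nhds (x := (4 : ℝ))).div_atTop tendsto_id
    exact (((hx.const_mul K).add hz).const_mul C).add hy
  simp only [mul_zero, add_zero] at hE
  have hdiff : Tendsto (fun T : ℝ =>
      (∑ᶠ γ ∈ zset T, (mz γ : ℝ) * wt T γ * (BB lam T (1 / 2 + γ * I) *
        (P0 T γ ^ a * (starRingEnd ℂ) (P0 T γ) ^ b)).re) /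
        (cG T * Real.log T * Real.sqrt (ll T) ^ (a + b)) +
      (∑ n ∈ Finset.Icc 1 ⌊T ^ (1 - δ)⌋₊, (La * pS (SS T 0) ^ b) n *
        (bb lam T * pS (SS T 0) ^ a) n / (n : ℝ)) /
          (Real.log T * Real.sqrt (ll T) ^ (a + b))) atTop (𝓝 0) := by
    refine squeeze_zero_norm' ?_ hE
    filter_upwards [eventually_ge_atTop T1, eventually_ge_atTop T2, cGL_ge,
      ll_tendsto.eventually_ge_atTop 1,
      Real.tendsto_log_atTop.eventually_ge_atTop 1, eventually_ge_atTop (1 : ℝ)]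
      with T hT1 hT2 hcG hl hL hT0
    have hl0 : 0 < ll T := by linarith
    have hL0 : 0 < Real.log T := by linarith
    have hTp : 0 < T := by linarith
    have hcL : 0 < cG T * Real.log T := lt_of_lt_of_le (by positivity) hcG
    have hc0 : 0 < cG T := (pos_iff_pos_of_mul_pos hcL).2 hL0
    have hs1 : 1 ≤ Real.sqrt (ll T) := by
      rw [Real.one_le_sqrt]; exact hl
    obtain ⟨hf, hg, hd1, hd2, hd3⟩ := hdb T hT2
    have h := hsm T hT1 _ _ hf hg
    have e1 : ∀ γ : ℝ, (mz γ : ℝ) * wt T γ *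
        (dpoly (bb lam T * pS (SS T 0) ^ a) (T ^ (1 - δ)) (1 / 2 + γ * I) *
        (starRingEnd ℂ) (dpoly (pS (SS T 0) ^ b) (T ^ (1 - δ)) (1 / 2 + γ * I))).re =
        (mz γ : ℝ) * wt T γ * (BB lam T (1 / 2 + γ * I) *
          (P0 T γ ^ a * (starRingEnd ℂ) (P0 T γ) ^ b)).re := by
      intro γ
      obtain ⟨p1, p2⟩ := polys lam δ T a b hf hg γ
      rw [p1, p2, map_pow, mul_assoc (BB lam T _)]
    simp only [e1] at h
    set w : ℝ := Real.sqrt (ll T) ^ (a + b) with hw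
    have hw1 : 1 ≤ w := one_le_pow₀ hs1
    have hw0 : 0 < w := by linarith
    set N : ℝ := ∑ᶠ γ ∈ zset T, (mz γ : ℝ) * wt T γ * (BB lam T (1 / 2 + γ * I) *
        (P0 T γ ^ a * (starRingEnd ℂ) (P0 T γ) ^ b)).re with hN
    set E : ℝ := ∑ n ∈ Finset.Icc 1 ⌊T ^ (1 - δ)⌋₊, ((bb lam T * pS (SS T 0) ^ a) n ^ 2 +
      (pS (SS T 0) ^ b) n ^ 2) / (n : ℝ) with hEdef
    set D0 : ℝ := ∑ n ∈ Finset.Icc 1 ⌊T ^ (1 - δ)⌋₊, (bb lam T * pS (SS T 0) ^ a) n *
      (pS (SS T 0) ^ b) n / (n : ℝ) with hD0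
    set D1 : ℝ := ∑ n ∈ Finset.Icc 1 ⌊T ^ (1 - δ)⌋₊, (La * (bb lam T * pS (SS T 0) ^ a)) n *
      (pS (SS T 0) ^ b) n / (n : ℝ) with hD1
    set D2 : ℝ := ∑ n ∈ Finset.Icc 1 ⌊T ^ (1 - δ)⌋₊, (La * pS (SS T 0) ^ b) n *
      (bb lam T * pS (SS T 0) ^ a) n / (n : ℝ) with hD2
    have e3 : Real.exp (-ll T) * Real.log T = 1 := by
      have e4 : Real.exp (ll T) = Real.log T := Real.exp_log hL0
      rw [Real.exp_neg, e4, inv_mul_cancel₀ hL0.ne']
    have hden : 0 < cG T * Real.log T * w := mul_pos hcL hw0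
    have e5 : N / (cG T * Real.log T * w) + D2 / (Real.log T * w) =
        ((N - cG T * (Real.log T * D0 - D1 - D2)) + cG T * Real.log T * D0 - cG T * D1) /
          (cG T * Real.log T * w) := by
      have h8 : cG T ≠ 0 := hc0.ne'
      have h9 : Real.log T ≠ 0 := hL0.ne'
      have h10 : w ≠ 0 := hw0.ne'
      field_simp
      ring
    rw [e5, Real.norm_eq_abs, abs_div, abs_of_pos hden, div_le_iff₀ hden]
    have i1 : cG T * E ≤ K * (ll T ^ (a + b) * Real.exp (-ll T)) * (cG T * Real.log T * w) := by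
      have e6 : K * (ll T ^ (a + b) * Real.exp (-ll T)) * (cG T * Real.log T * w) =
          cG T * (K * ll T ^ (a + b) * w) := by
        linear_combination (K * ll T ^ (a + b) * cG T * w) * e3
      rw [e6]
      refine mul_le_mul_of_nonneg_left (hd1.trans ?_) hc0.le
      exact le_mul_of_one_le_right (by positivity) hw1
    have i5 : (1 : ℝ) ≤ 4 / T * (cG T * Real.log T * w) := by
      calc (1 : ℝ) = 4 / T * (T / 4 * 1) := by field_simp
        _ ≤ 4 / T * (cG T * Real.log T * w) := by gcongr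
    have i2 : |cG T * Real.log T * D0| ≤ K / ll T ^ 2 * (cG T * Real.log T * w) := by
      rw [abs_mul, abs_of_pos hcL]
      have := mul_le_mul_of_nonneg_left hd2 hcL.le
      refine this.trans (le_of_eq ?_)
      ring
    have i3 : |cG T * D1| ≤ K / ll T ^ 2 * (cG T * Real.log T * w) := by
      rw [abs_mul, abs_of_pos hc0]
      have := mul_le_mul_of_nonneg_left hd3 hc0.le
      refine this.trans (le_of_eq ?_)
      ring
    have i6 : |N - cG T * (Real.log T * D0 - D1 - D2)| ≤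
        C * (K * (ll T ^ (a + b) * Real.exp (-ll T)) + 4 / T) * (cG T * Real.log T * w) := by
      refine h.trans ?_
      rw [mul_assoc C, add_mul]
      exact mul_le_mul_of_nonneg_left (add_le_add i1 i5) hC.le
    calc |N - cG T * (Real.log T * D0 - D1 - D2) + cG T * Real.log T * D0 - cG T * D1|
        ≤ |N - cG T * (Real.log T * D0 - D1 - D2)| + |cG T * Real.log T * D0| +
          |cG T * D1| := by
          refine (abs_sub _ _).trans ?_
          exact add_le_add (abs_add_le _ _) le_rfl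
      _ ≤ (C * (K * (ll T ^ (a + b) * Real.exp (-ll T)) + 4 / T) + 2 * K / ll T ^ 2) *
          (cG T * Real.log T * w) := by
          have : (C * (K * (ll T ^ (a + b) * Real.exp (-ll T)) + 4 / T) + 2 * K / ll T ^ 2) *
              (cG T * Real.log T * w) =
              C * (K * (ll T ^ (a + b) * Real.exp (-ll T)) + 4 / T) * (cG T * Real.log T * w) +
              K / ll T ^ 2 * (cG T * Real.log T * w) +
              K / ll T ^ 2 * (cG T * Real.log T * w) := by ring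
          rw [this]
          linarith
  have h := hdiff.sub hmain
  rw [zero_sub] at h
  refine h.congr (fun T => ?_)
  ring

end Pool.Agent.Lib.MP_6bc78b_nt.MS.GL.H48
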